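import Pool.Agent.H86.SD.CHR

/-! Module BAL: most tables are balanced. -/

set_option autoImplicit false

namespace Pool.Agent.H33.SD

open Finset
open Pool.Agent.H1.LP (Loc PD Viol Sys supp ip val Agree FS Typ kk S_MAIN S_BASE S_LOC S_ENC S_FORM)
open Pool.Agent.H76.SD

/-- the frequency `a` at the entry `q` of the block `j` -/
def fq {p B : ℕ} {Q : Type} [DecidableEq Q] (j : Fin B) (a : ZMod p) (q : Q) :
    Fin B → Q → ZMod p := Pi.single j (Pi.single q a)

theorem tp_fq {p B : ℕ} {Q : Type} [Fintype Q] [DecidableEq Q] (j : Fin B) (a : ZMod p) (q : Q)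
    (al : Fin B → Q → ZMod p) : tp (fq j a q) al = a * al j q := by
  unfold tp
  rw [sum_eq_single j, sum_eq_single q]
  · simp [fq]
  · intro q' _ hq'
    simp [fq, hq']
  · simp
  · intro j' _ hj'
    refine sum_eq_zero fun q' _ => ?_
    simp [fq, hj']
  · simp

theorem fq_inj {p B : ℕ} {Q : Type} [DecidableEq Q] (j : Fin B) (a : ZMod p) (ha : a ≠ 0) :
    Function.Injective (fq (Q := Q) j a) := by
  intro q q' h
  by_contra hne
  have h1 := congrFun (congrFun h j) q
  unfold fq at h1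
  rw [Pi.single_eq_same, Pi.single_eq_same, Pi.single_eq_same, Pi.single_eq_of_ne hne] at h1
  exact ha h1

/-- second moment of a character sum -/
theorem mom2 {p B : ℕ} [Fact p.Prime] {Q : Type} [Fintype Q] [DecidableEq Q] (j : Fin B)
    (a : ZMod p) (ha : a ≠ 0) :
    ∑ al : Fin B → Q → ZMod p, ‖∑ q, (ZMod.stdAddChar (a * al j q) : ℂ)‖ ^ 2 =
      (Fintype.card (Fin B → Q → ZMod p) : ℝ) * Fintype.card Q := by
  classical
  have h1 := (Pool.Agent.H86.SD.chr_ p B Q).2 (univ.image (fq (Q := Q) j a)) (fun _ => 1)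
  have h2 : ∀ al : Fin B → Q → ZMod p, ∑ ga ∈ univ.image (fq (Q := Q) j a), (1 : ℂ) * chr ga al =
      ∑ q, (ZMod.stdAddChar (a * al j q) : ℂ) := by
    intro al
    rw [sum_image fun q _ q' _ h => fq_inj j a ha h]
    refine sum_congr rfl fun q _ => ?_
    unfold chr
    rw [one_mul, tp_fq]
  simp_rw [h2] at h1
  rw [h1, sum_image fun q _ q' _ h => fq_inj j a ha h]
  simp

theorem bal : T_BAL := by
  classical
  intro E g B p _ Q _ _ hE hg hQ hp
  obtain ⟨N, hN⟩ : ∃ N : ℝ, N = Fintype.card (Fin B → Q → ZMod p) := ⟨_, rfl⟩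
  obtain ⟨C, hC⟩ : ∃ C : ℝ, C = Fintype.card Q := ⟨_, rfl⟩
  have hN0 : 0 ≤ N := by rw [hN]; positivity
  have hCp : C = (2 : ℝ) ^ (4 * g * E) := by
    rw [hC, hQ]
    push_cast
    rw [← pow_mul]
  have hC0 : 0 < C := by rw [hCp]; positivity
  -- one pair
  have key : ∀ (j : Fin B) (a : ZMod p), a ≠ 0 →
      ((univ.filter (fun al : Fin B → Q → ZMod p =>
        ¬ (‖∑ q, (ZMod.stdAddChar (a * al j q) : ℂ)‖ * 2 ^ g ≤ Fintype.card Q))).card : ℝ) * C ≤
        N * 4 ^ g := by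
    intro j a ha
    have h1 : ∀ al ∈ univ.filter (fun al : Fin B → Q → ZMod p =>
        ¬ (‖∑ q, (ZMod.stdAddChar (a * al j q) : ℂ)‖ * 2 ^ g ≤ Fintype.card Q)),
        C ^ 2 ≤ 4 ^ g * ‖∑ q, (ZMod.stdAddChar (a * al j q) : ℂ)‖ ^ 2 := by
      intro al hal
      have h2 := (mem_filter.1 hal).2
      push Not at h2
      rw [← hC] at h2
      have h3 : C ^ 2 ≤ (‖∑ q, (ZMod.stdAddChar (a * al j q) : ℂ)‖ * 2 ^ g) ^ 2 :=
        pow_le_pow_left₀ hC0.le h2.le 2
      refine h3.trans (le_of_eq ?_)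
      rw [mul_pow, ← pow_mul, mul_comm g 2, pow_mul]
      norm_num
      ring
    have h4 := sum_le_sum h1
    rw [sum_const, nsmul_eq_mul] at h4
    have h5 : ∑ al ∈ univ.filter (fun al : Fin B → Q → ZMod p =>
        ¬ (‖∑ q, (ZMod.stdAddChar (a * al j q) : ℂ)‖ * 2 ^ g ≤ Fintype.card Q)),
        (4 : ℝ) ^ g * ‖∑ q, (ZMod.stdAddChar (a * al j q) : ℂ)‖ ^ 2 ≤ 4 ^ g * (N * C) := by
      rw [← mul_sum, hN, hC, ← mom2 j a ha]
      refine mul_le_mul_of_nonneg_left ?_ (by positivity)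
      exact sum_le_univ_sum_of_nonneg fun al => by positivity
    have h6 := h4.trans h5
    have h7 : ((univ.filter (fun al : Fin B → Q → ZMod p =>
        ¬ (‖∑ q, (ZMod.stdAddChar (a * al j q) : ℂ)‖ * 2 ^ g ≤ Fintype.card Q))).card : ℝ) * C * C ≤
        N * 4 ^ g * C := by
      calc _ = ((univ.filter (fun al : Fin B → Q → ZMod p =>
        ¬ (‖∑ q, (ZMod.stdAddChar (a * al j q) : ℂ)‖ * 2 ^ g ≤ Fintype.card Q))).card : ℝ) *
          C ^ 2 := by ring
        _ ≤ _ := h6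
        _ = _ := by ring
    exact le_of_mul_le_mul_right h7 hC0
  -- union
  have hun : num (fun al : Fin B → Q → ZMod p => ¬ Bal g al) * C ≤ B * p * (N * 4 ^ g) := by
    have h1 : (univ.filter (fun al : Fin B → Q → ZMod p => ¬ Bal g al)) ⊆
        (univ ×ˢ univ.filter (fun a : ZMod p => a ≠ 0)).biUnion
          (fun ja : Fin B × ZMod p => univ.filter (fun al : Fin B → Q → ZMod p =>
        ¬ (‖∑ q, (ZMod.stdAddChar (ja.2 * al ja.1 q) : ℂ)‖ * 2 ^ g ≤ Fintype.card Q))) := by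
      intro al hal
      have h2 := (mem_filter.1 hal).2
      unfold Bal at h2
      push Not at h2
      obtain ⟨j, a, ha, h3⟩ := h2
      rw [mem_biUnion]
      refine ⟨(j, a), by simp [ha], ?_⟩
      rw [mem_filter]
      exact ⟨mem_univ _, not_le.2 h3⟩
    have h4 := (card_le_card h1).trans card_biUnion_le
    have h5 : num (fun al : Fin B → Q → ZMod p => ¬ Bal g al) ≤
        ∑ ja ∈ (univ : Finset (Fin B)) ×ˢ univ.filter (fun a : ZMod p => a ≠ 0),
          ((univ.filter (fun al : Fin B → Q → ZMod p =>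
        ¬ (‖∑ q, (ZMod.stdAddChar (ja.2 * al ja.1 q) : ℂ)‖ * 2 ^ g ≤ Fintype.card Q))).card : ℝ) := by
      unfold num
      rw [← Nat.cast_sum]
      refine Nat.cast_le.2 (le_trans (le_of_eq ?_) h4)
      congr
    calc num (fun al : Fin B → Q → ZMod p => ¬ Bal g al) * C ≤
        (∑ ja ∈ (univ : Finset (Fin B)) ×ˢ univ.filter (fun a : ZMod p => a ≠ 0),
          ((univ.filter (fun al : Fin B → Q → ZMod p =>
        ¬ (‖∑ q, (ZMod.stdAddChar (ja.2 * al ja.1 q) : ℂ)‖ * 2 ^ g ≤ Fintype.card Q))).card : ℝ)) * C :=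
          mul_le_mul_of_nonneg_right h5 hC0.le
      _ ≤ ∑ ja ∈ (univ : Finset (Fin B)) ×ˢ univ.filter (fun a : ZMod p => a ≠ 0), N * 4 ^ g := by
          rw [sum_mul]
          refine sum_le_sum fun ja hja => key ja.1 ja.2 ?_
          exact (mem_filter.1 (mem_product.1 hja).2).2
      _ ≤ B * p * (N * 4 ^ g) := by
          rw [sum_const, nsmul_eq_mul]
          refine mul_le_mul_of_nonneg_right ?_ (by positivity)
          rw [card_product, card_univ, Fintype.card_fin]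
          push_cast
          refine mul_le_mul_of_nonneg_left ?_ (by positivity)
          have h6 : (univ.filter (fun a : ZMod p => a ≠ 0)).card ≤ p := by
            refine (card_filter_le _ _).trans (le_of_eq ?_)
            rw [card_univ, ZMod.card]
          exact_mod_cast h6
  rw [← hN]
  have h8 : 4 * ((B : ℝ) * p * (N * 4 ^ g)) ≤ N * C := by
    have h9 : (4 : ℝ) * p * B ≤ 2 ^ g := by exact_mod_cast hp
    have h10 : (2 : ℝ) ^ g * 4 ^ g ≤ C := by
      rw [hCp, show (4 : ℝ) = 2 ^ 2 by norm_num, ← pow_mul, ← pow_add]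
      apply pow_le_pow_right₀ (by norm_num)
      nlinarith
    calc 4 * ((B : ℝ) * p * (N * 4 ^ g)) = N * ((4 * p * B) * 4 ^ g) := by ring
      _ ≤ N * (2 ^ g * 4 ^ g) := by gcongr
      _ ≤ N * C := by gcongr
  have h11 : 4 * num (fun al : Fin B → Q → ZMod p => ¬ Bal g al) * C ≤ N * C := by
    calc _ = 4 * (num (fun al : Fin B → Q → ZMod p => ¬ Bal g al) * C) := by ring
      _ ≤ 4 * ((B : ℝ) * p * (N * 4 ^ g)) := by gcongr
      _ ≤ _ := h8
  exact le_of_mul_le_mul_right h11 hC0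

end Pool.Agent.H33.SD
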