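import Pool.Agent.H76.SD.Targets

/-! Module BLK: one block, from the normalised case. -/

set_option autoImplicit false

namespace Pool.Agent.H33.SD

open Finset Matrix
open Pool.Agent.H1.LP (Loc PD Viol Sys supp ip val Agree FS Typ kk S_MAIN S_BASE S_LOC S_ENC S_FORM)
open Pool.Agent.H76.SD
open scoped MatrixOrder

/-- the cone of positive semidefinite matrices is closed -/
theorem psd_lim {r : ℕ} (H : Matrix (Fin r) (Fin r) ℝ) (hH : H.IsHermitian) (s : ℝ)
    (h : ∃ᶠ m : ℕ in Filter.atTop,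
      (H + (s * (1 / ((m : ℝ) + 1))) • (1 : Matrix (Fin r) (Fin r) ℝ)).PosSemidef) :
    H.PosSemidef := by
  refine Matrix.PosSemidef.of_dotProduct_mulVec_nonneg hH fun x => ?_
  have h1 : Filter.Tendsto (fun m : ℕ => star x ⬝ᵥ (H *ᵥ x) +
      s * (1 / ((m : ℝ) + 1)) * (star x ⬝ᵥ x)) Filter.atTop
      (nhds (star x ⬝ᵥ (H *ᵥ x) + s * 0 * (star x ⬝ᵥ x))) :=
    tendsto_const_nhds.add
      ((tendsto_const_nhds.mul tendsto_one_div_add_atTop_nhds_zero_nat).mul tendsto_const_nhds)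
  rw [mul_zero, zero_mul, add_zero] at h1
  refine ge_of_tendsto_of_frequently h1 (h.mono fun m hm => ?_)
  have h2 := hm.dotProduct_mulVec_nonneg x
  rw [Matrix.add_mulVec, Matrix.smul_mulVec, Matrix.one_mulVec, dotProduct_add, dotProduct_smul,
    smul_eq_mul] at h2
  exact h2

/-- factorisation of a positive definite matrix -/
theorem posdef_fact {r : ℕ} (A : Matrix (Fin r) (Fin r) ℝ) (hA : A.PosDef) :
    ∃ R C : Matrix (Fin r) (Fin r) ℝ, R * C = 1 ∧ C * R = 1 ∧ Cᴴ * A * C = 1 := by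
  obtain ⟨R, hR⟩ := CStarAlgebra.nonneg_iff_eq_star_mul_self.mp hA.posSemidef.nonneg
  rw [Matrix.star_eq_conjTranspose] at hR
  have h1 : A.det ≠ 0 := by
    have h2 := hA.isUnit
    rw [Matrix.isUnit_iff_isUnit_det] at h2
    exact h2.ne_zero
  have h3 : IsUnit R.det := by
    rw [hR, Matrix.det_mul] at h1
    exact (right_ne_zero_of_mul h1).isUnit
  have h4 : R * R⁻¹ = 1 := Matrix.mul_nonsing_inv R h3
  refine ⟨R, R⁻¹, h4, Matrix.nonsing_inv_mul R h3, ?_⟩
  rw [hR]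
  calc R⁻¹ᴴ * (Rᴴ * R) * R⁻¹ = (R * R⁻¹)ᴴ * (R * R⁻¹) := by
        rw [Matrix.conjTranspose_mul]
        simp only [Matrix.mul_assoc]
    _ = 1 := by rw [h4]; simp

theorem num_mono {α : Type} [Fintype α] {R R' : α → Prop} (h : ∀ a, R a → R' a) :
    num R ≤ num R' := by
  classical
  unfold num
  refine Nat.cast_le.2 (card_le_card fun a ha => ?_)
  simp only [mem_filter, mem_univ, true_and] at ha ⊢
  exact h a ha

theorem blk (hBL0 : T_BL0) : T_BLK := by
  classical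
  intro E g B t r p _ Q _ _ S V hE hB hp hQ hg1 hg2 hr hV
  have hQ0 : Nonempty Q := Fintype.card_pos_iff.1 (by rw [hQ]; positivity)
  obtain ⟨hh, hhd⟩ : ∃ hh : (Fin B → Q → ZMod p) → Finset (Fin B → Q) → (Fin B → Q) → ℝ,
    hh = fun al Li x => PD S al x + ((E : ℝ) + 1) ^ B * (1 / 2) ^ t +
      2 ^ ((4 * E + 1) * B) * ind Li x := ⟨_, rfl⟩
  obtain ⟨bd, hbd⟩ : ∃ bd : ℝ, bd =
    (1 / 2) ^ 2 ^ (2 * g) * Fintype.card (Fin B → Q → ZMod p) := ⟨_, rfl⟩
  obtain ⟨cb, hcb⟩ : ∃ cb : ℝ, cb = (2 ^ (4 * g)) ^ (11 * B + 3) * (r : ℝ) ^ 2 := ⟨_, rfl⟩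
  have step : ∀ m : ℕ, ∃ Li : Finset (Fin B → Q), (Li.card : ℝ) ≤ cb ∧
      num (fun al : Fin B → Q → ZMod p =>
        ¬ (∑ x, hh al Li x • (V x + (1 / ((m : ℝ) + 1)) • 1)).PosSemidef) ≤ bd := by
    intro m
    have hη : 0 < 1 / ((m : ℝ) + 1) := by positivity
    have hV' : ∀ x, (V x + (1 / ((m : ℝ) + 1)) • (1 : Matrix (Fin r) (Fin r) ℝ)).PosDef :=
      fun x => Matrix.PosDef.posSemidef_add (hV x) (Matrix.PosDef.one.smul hη)
    have hA : (∑ x, (V x + (1 / ((m : ℝ) + 1)) • (1 : Matrix (Fin r) (Fin r) ℝ))).PosDef :=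
      Matrix.posDef_sum univ_nonempty fun x _ => hV' x
    obtain ⟨R, C, hRC, hCR, hCA⟩ := posdef_fact _ hA
    obtain ⟨Li, hLi1, hLi2⟩ := hBL0 E g B t r p Q S
      (fun x => Cᴴ * (V x + (1 / ((m : ℝ) + 1)) • (1 : Matrix (Fin r) (Fin r) ℝ)) * C)
      hE hB hp hQ hg1 hg2 hr (fun x => (hV' x).posSemidef.conjTranspose_mul_mul_same C)
      (by rw [Matrix.mul_sum, Matrix.sum_mul] at hCA; exact hCA)
    refine ⟨Li, by rw [hcb]; exact hLi1, ?_⟩
    rw [hbd]
    refine le_trans (num_mono fun al hal => ?_) hLi2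
    refine fun hpsd => hal ?_
    have h1 := hpsd.conjTranspose_mul_mul_same R
    have h2 : Rᴴ * (∑ x, (PD S al x + ((E : ℝ) + 1) ^ B * (1 / 2) ^ t +
        2 ^ ((4 * E + 1) * B) * ind Li x) •
        (Cᴴ * (V x + (1 / ((m : ℝ) + 1)) • (1 : Matrix (Fin r) (Fin r) ℝ)) * C)) * R =
        ∑ x, hh al Li x • (V x + (1 / ((m : ℝ) + 1)) • 1) := by
      rw [Matrix.mul_sum, Matrix.sum_mul]
      refine sum_congr rfl fun x _ => ?_
      rw [Matrix.mul_smul, Matrix.smul_mul, hhd]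
      congr 1
      have h3 : Rᴴ * Cᴴ = 1 := by
        rw [← Matrix.conjTranspose_mul, hCR, Matrix.conjTranspose_one]
      calc _ = (Rᴴ * Cᴴ) * (V x + (1 / ((m : ℝ) + 1)) • (1 : Matrix (Fin r) (Fin r) ℝ)) * (C * R) := by
            simp only [Matrix.mul_assoc]
        _ = _ := by rw [h3, hCR, Matrix.one_mul, Matrix.mul_one]
    rw [h2] at h1
    exact h1
  choose L hL1 hL2 using step
  -- pigeonhole
  have hpig : ∃ Li : Finset (Fin B → Q), ∃ᶠ m : ℕ in Filter.atTop, L m = Li := by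
    by_contra hcon
    push Not at hcon
    have h1 : ∀ᶠ m : ℕ in Filter.atTop, ∀ Li : Finset (Fin B → Q), L m ≠ Li := by
      rw [Filter.eventually_all]
      exact hcon
    obtain ⟨m, hm⟩ := h1.exists
    exact hm (L m) rfl
  obtain ⟨Li, hLi⟩ := hpig
  have hev : ∀ᶠ m : ℕ in Filter.atTop, ∀ al : Fin B → Q → ZMod p,
      (¬ (∑ x, hh al Li x • V x).PosSemidef) →
        ¬ (∑ x, hh al Li x • (V x + (1 / ((m : ℝ) + 1)) • 1)).PosSemidef := by
    rw [Filter.eventually_all]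
    intro al
    by_cases hp : (∑ x, hh al Li x • V x).PosSemidef
    · exact Filter.Eventually.of_forall fun m h => absurd hp h
    · have hher : (∑ x, hh al Li x • V x).IsHermitian := by
        unfold Matrix.IsHermitian
        rw [Matrix.conjTranspose_sum]
        refine sum_congr rfl fun x _ => ?_
        rw [Matrix.conjTranspose_smul, (hV x).1.eq]
        simp
      have h1 := mt (psd_lim _ hher (∑ x, hh al Li x)) hp
      rw [Filter.not_frequently] at h1
      refine h1.mono fun m hm _ hps => hm ?_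
      have h2 : ∑ x, hh al Li x • (V x + (1 / ((m : ℝ) + 1)) • (1 : Matrix (Fin r) (Fin r) ℝ)) =
          ∑ x, hh al Li x • V x + ((∑ x, hh al Li x) * (1 / ((m : ℝ) + 1))) •
            (1 : Matrix (Fin r) (Fin r) ℝ) := by
        simp_rw [smul_add, smul_smul]
        rw [sum_add_distrib, sum_mul, sum_smul]
      rw [h2] at hps
      exact hps
  obtain ⟨m, hm1, hm2⟩ := (hLi.and_eventually hev).exists
  refine ⟨Li, ?_, ?_⟩
  · have := hL1 m
    rw [hm1, hcb] at this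
    exact this
  · have h1 := hL2 m
    rw [hm1, hbd] at h1
    refine le_trans (num_mono fun al hal => hm2 al ?_) h1
    rw [hhd]
    exact hal

end Pool.Agent.H33.SD
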