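import Pool.Agent.H76.SD.Targets

/-! Module COR: for most tables the random matrix is almost positive. -/

set_option autoImplicit false

namespace Pool.Agent.H33.SD

open Finset
open Pool.Agent.H1.LP (Loc PD Viol Sys supp ip val Agree FS Typ kk S_MAIN S_BASE S_LOC S_ENC S_FORM)
open Pool.Agent.H76.SD

theorem psd_sum {ι m : Type*} [Fintype m] (s : Finset ι) (f : ι → Matrix m m ℝ)
    (h : ∀ i ∈ s, (f i).PosSemidef) : (∑ i ∈ s, f i).PosSemidef := by
  classical
  induction s using Finset.induction_on with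
  | empty => simpa using Matrix.PosSemidef.zero
  | insert a s ha ih =>
    rw [sum_insert ha]
    exact (h a (mem_insert_self _ _)).add (ih fun i hi => h i (mem_insert_of_mem hi))

theorem psd_comb {X : Type*} [Fintype X] {r : ℕ} (V : X → Matrix (Fin r) (Fin r) ℝ)
    (c : X → ℝ) (La : ℝ) (hV : ∀ x, (V x).PosSemidef) (h1 : (1 - ∑ x, V x).PosSemidef)
    (hc : ∀ x, -La ≤ c x) (hLa : 0 ≤ La) :
    (La • (1 : Matrix (Fin r) (Fin r) ℝ) + ∑ x, c x • V x).PosSemidef := by
  have h2 : La • (1 : Matrix (Fin r) (Fin r) ℝ) + ∑ x, c x • V x =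
      La • (1 - ∑ x, V x) + ∑ x, (La + c x) • V x := by
    simp_rw [add_smul]
    rw [sum_add_distrib, smul_sub, smul_sum]
    abel
  rw [h2]
  refine (h1.smul hLa).add (psd_sum _ _ fun x _ => (hV x).smul ?_)
  linarith [hc x]

theorem cor (hMID : T_MID) (hSPE : T_SPE) : T_COR := by
  intro p B d r k _ Q _ _ S V Ls La th be ε hLs hPD hV h1 hk hth htr hbe hbe2 hε hεL h12
  have hLa : 0 < La := by linarith
  have hbe1 : be ≤ 1 := by nlinarith
  have hmid := hMID p B d r k Q S V Ls La th be hLs hPD hV h1 hk hth htr hLa.le hbe hbe1 hbe2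
  have hp1 : ∀ al : Fin B → Q → ZMod p,
      (La • (1 : Matrix (Fin r) (Fin r) ℝ) + MM S V al).PosSemidef := by
    intro al
    exact psd_comb V (fun x => PD S al x) La hV h1 (fun x => (abs_le.1 (hPD al x)).1) hLa.le
  have hp2 : ∀ al : Fin B → Q → ZMod p,
      (La • (1 : Matrix (Fin r) (Fin r) ℝ) - MM S V al).PosSemidef := by
    intro al
    have h2 := psd_comb V (fun x => -PD S al x) La hV h1
      (fun x => by linarith [(abs_le.1 (hPD al x)).2]) hLa.le
    have h3 : ∑ x, -PD S al x • V x = -MM S V al := by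
      unfold MM
      rw [← sum_neg_distrib]
      exact sum_congr rfl fun x _ => neg_smul _ _
    rw [h3, ← sub_eq_add_neg] at h2
    exact h2
  obtain ⟨G, hG⟩ : ∃ G : (Fin B → Q → ZMod p) → ℝ, G = fun al =>
    ((La • (1 : Matrix (Fin r) (Fin r) ℝ) - MM S V al) ^ (2 * k)).trace := ⟨_, rfl⟩
  obtain ⟨R, hR⟩ : ∃ R : (Fin B → Q → ZMod p) → ℝ, R = fun al =>
    (MM S V al * (La • (1 : Matrix (Fin r) (Fin r) ℝ) - MM S V al) ^ (2 * k)).trace := ⟨_, rfl⟩
  have hspe := fun al => hSPE r k (MM S V al) La ε hε hεL (hp2 al) (hp1 al)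
  have hG0 : ∀ al, 0 ≤ G al := by rw [hG]; exact fun al => (hspe al).1
  have hRG : ∀ al, R al + ε / 2 * G al ≤ 2 * La * r * (La + ε / 2) ^ (2 * k) := by
    rw [hG, hR]; exact fun al => (hspe al).2.1
  have hbad : ∀ al, ¬ (ε • (1 : Matrix (Fin r) (Fin r) ℝ) + MM S V al).PosSemidef →
      (La + ε) ^ (2 * k) ≤ G al := by
    rw [hG]; exact fun al => (hspe al).2.2
  have hmid' : -(3 * La * be * ∑ al, G al) ≤ ∑ al, R al := by rw [hG, hR]; exact hmid
  have hGs : 0 ≤ ∑ al, G al := sum_nonneg fun al _ => hG0 al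
  have h4 : ∑ al, R al + ε / 2 * ∑ al, G al ≤
      Fintype.card (Fin B → Q → ZMod p) * (2 * La * r * (La + ε / 2) ^ (2 * k)) := by
    rw [mul_sum, ← sum_add_distrib]
    refine (sum_le_sum fun al _ => hRG al).trans (le_of_eq ?_)
    rw [sum_const, nsmul_eq_mul, card_univ]
  have h5 : 3 * La * be * ∑ al, G al ≤ ε / 4 * ∑ al, G al := by
    apply mul_le_mul_of_nonneg_right _ hGs
    linarith
  have h6 : ∑ al, G al ≤
      8 * La * r / ε * (La + ε / 2) ^ (2 * k) * Fintype.card (Fin B → Q → ZMod p) := by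
    have h7 : ε / 4 * ∑ al, G al ≤
        Fintype.card (Fin B → Q → ZMod p) * (2 * La * r * (La + ε / 2) ^ (2 * k)) := by linarith
    have h8 : 8 * La * r / ε * (La + ε / 2) ^ (2 * k) * Fintype.card (Fin B → Q → ZMod p) =
        4 / ε * (Fintype.card (Fin B → Q → ZMod p) * (2 * La * r * (La + ε / 2) ^ (2 * k))) := by
      field_simp
      ring
    rw [h8]
    calc ∑ al, G al = 4 / ε * (ε / 4 * ∑ al, G al) := by field_simp
      _ ≤ _ := mul_le_mul_of_nonneg_left h7 (by positivity)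
  refine le_trans ?_ h6
  unfold num
  rw [← nsmul_eq_mul, ← sum_const]
  refine le_trans (sum_le_sum (g := G) ?_) (sum_le_univ_sum_of_nonneg hG0)
  intro al hal
  exact hbad al (by simpa using hal)

end Pool.Agent.H33.SD
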